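import Mathlib

namespace Pool.Agent.Results.MP_1efffb_co.FourRows

open Matrix

/-- Hadamard matrix of order `n`: entries `±1` and `H Hᵀ = Hᵀ H = n I`. -/
def IsHadamard {n : ℕ} (H : Matrix (Fin n) (Fin n) ℤ) : Prop :=
  (∀ i j, H i j = 1 ∨ H i j = -1) ∧ H * Hᵀ = (n : ℤ) • (1 : Matrix (Fin n) (Fin n) ℤ) ∧
    Hᵀ * H = (n : ℤ) • (1 : Matrix (Fin n) (Fin n) ℤ)

/-- All entries of the first row and of the first column equal `1`. -/
def IsNormalized {n : ℕ} (H : Matrix (Fin n) (Fin n) ℤ) : Prop :=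
  ∀ i j, (i.val = 0 ∨ j.val = 0) → H i j = 1

/-- The largest Hamming distance between two points of `A`. -/
def diam {m : ℕ} (A : Finset (Fin m → ℤ)) : ℕ :=
  (A ×ˢ A).sup (fun p => hammingDist p.1 p.2)

/-- No point of the cube `{±1}^m` outside `A` can be added without raising the diameter. -/
def DiamMaximal {m : ℕ} (A : Finset (Fin m → ℤ)) : Prop :=
  ∀ x : Fin m → ℤ, (∀ i, x i = 1 ∨ x i = -1) → x ∉ A → diam A < diam (insert x A)

/-- The set of columns of `H` after deleting its first `r` rows. -/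
def cols {n : ℕ} (H : Matrix (Fin n) (Fin n) ℤ) (r : ℕ) : Finset (Fin (n - r) → ℤ) :=
  Finset.univ.image (fun j : Fin n => fun i : Fin (n - r) => H ⟨r + i.val, by omega⟩ j)

theorem ip_dist {m : ℕ} (x y : Fin m → ℤ) (hx : ∀ i, x i = 1 ∨ x i = -1)
    (hy : ∀ i, y i = 1 ∨ y i = -1) : ∑ i, x i * y i = m - 2 * (hammingDist x y : ℤ) := by
  unfold hammingDist
  rw [Finset.card_filter]
  push_cast
  rw [Finset.mul_sum]
  have : (m : ℤ) = ∑ _i : Fin m, (1 : ℤ) := by simp
  rw [this, ← Finset.sum_sub_distrib]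
  refine Finset.sum_congr rfl (fun i _ => ?_)
  rcases hx i with h | h <;> rcases hy i with h' | h' <;> simp [h, h']

theorem sum_tail {n : ℕ} (r : ℕ) (f : Fin n → ℤ) :
    ∑ i : Fin (n - r), f ⟨r + i.val, by omega⟩ = ∑ i : Fin n, if r ≤ i.val then f i else 0 := by
  rw [← Finset.sum_filter]
  refine Finset.sum_bij (fun i _ => ⟨r + i.val, by omega⟩) ?_ ?_ ?_ ?_
  · intro i _; simp
  · intro i _ j _ h
    simp only [Fin.mk.injEq] at h
    exact Fin.ext (by omega)
  · intro j hj
    simp only [Finset.mem_filter, Finset.mem_univ, true_and] at hj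
    exact ⟨⟨j.val - r, by omega⟩, Finset.mem_univ _, Fin.ext (by simp; omega)⟩
  · intro i _; rfl

def K (s t : Fin 4) : ℤ := ![![1, 1, 1, 1], ![1, -1, 1, -1], ![1, 1, -1, -1], ![1, -1, -1, 1]] s t
def q (t : Fin 4) : ℤ := ![1, 1, 1, -1] t

def L {m : ℕ} (a : Fin m) (s t : Fin 4) : ℤ := if a.val = 0 then K s t else K s t * q t

theorem L_pm {m : ℕ} (a : Fin m) (s t : Fin 4) : L a s t = 1 ∨ L a s t = -1 := by
  unfold L; split_ifs
  · revert s t; decide
  · revert s t; decide

theorem L_row {m : ℕ} (a : Fin m) (s s' : Fin 4) :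
    ∑ t, L a s t * L a s' t = if s = s' then 4 else 0 := by
  unfold L; split_ifs <;> revert s s' <;> decide

theorem L_col {m : ℕ} (a : Fin m) (t t' : Fin 4) :
    ∑ s, L a s t * L a s t' = if t = t' then 4 else 0 := by
  unfold L; split_ifs <;> revert t t' <;> decide

def big {m : ℕ} (S : Matrix (Fin m) (Fin m) ℤ) : Matrix (Fin (m * 4)) (Fin (m * 4)) ℤ :=
  fun i j => S (finProdFinEquiv.symm i).1 (finProdFinEquiv.symm j).1 *
    L (finProdFinEquiv.symm i).1 (finProdFinEquiv.symm i).2 (finProdFinEquiv.symm j).2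

theorem big_apply {m : ℕ} (S : Matrix (Fin m) (Fin m) ℤ) (a b : Fin m) (s t : Fin 4) :
    big S (finProdFinEquiv (a, s)) (finProdFinEquiv (b, t)) = S a b * L a s t := by
  simp [big]

theorem big_had {m : ℕ} (S : Matrix (Fin m) (Fin m) ℤ) (h : IsHadamard S) :
    IsHadamard (big S) := by
  obtain ⟨h1, h2, h3⟩ := h
  refine ⟨?_, ?_, ?_⟩
  · intro i j
    obtain ⟨⟨a, s⟩, rfl⟩ := finProdFinEquiv.surjective i
    obtain ⟨⟨b, t⟩, rfl⟩ := finProdFinEquiv.surjective j
    rw [big_apply]
    rcases h1 a b with h | h <;> rcases L_pm a s t with h' | h' <;> simp [h, h']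
  · ext i j
    obtain ⟨⟨a, s⟩, rfl⟩ := finProdFinEquiv.surjective i
    obtain ⟨⟨a', s'⟩, rfl⟩ := finProdFinEquiv.surjective j
    have hxy := congrFun (congrFun h2 a) a'
    rw [Matrix.mul_apply] at hxy ⊢
    rw [← finProdFinEquiv.sum_comp, Fintype.sum_prod_type]
    simp only [Matrix.transpose_apply, big_apply] at hxy ⊢
    have : ∀ b : Fin m, ∑ t : Fin 4, S a b * L a s t * (S a' b * L a' s' t) =
        S a b * S a' b * ∑ t : Fin 4, L a s t * L a' s' t := by
      intro b
      rw [Finset.mul_sum]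
      exact Finset.sum_congr rfl (fun z _ => by ring)
    simp only [this]
    rw [← Finset.sum_mul, hxy]
    simp only [Matrix.smul_apply, Matrix.one_apply, EmbeddingLike.apply_eq_iff_eq,
      Prod.mk.injEq, smul_eq_mul]
    by_cases ha : a = a'
    · subst ha
      rw [L_row]
      by_cases hs : s = s' <;> simp [hs]
    · simp [ha]
  · ext i j
    obtain ⟨⟨b, t⟩, rfl⟩ := finProdFinEquiv.surjective i
    obtain ⟨⟨b', t'⟩, rfl⟩ := finProdFinEquiv.surjective j
    have hxy := congrFun (congrFun h3 b) b'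
    rw [Matrix.mul_apply] at hxy ⊢
    rw [← finProdFinEquiv.sum_comp, Fintype.sum_prod_type]
    simp only [Matrix.transpose_apply, big_apply] at hxy ⊢
    have : ∀ a : Fin m, ∑ s : Fin 4, S a b * L a s t * (S a b' * L a s t') =
        S a b * S a b' * (if t = t' then 4 else 0) := by
      intro a
      rw [← L_col a, Finset.mul_sum]
      exact Finset.sum_congr rfl (fun z _ => by ring)
    simp only [this]
    rw [← Finset.sum_mul, hxy]
    simp only [Matrix.smul_apply, Matrix.one_apply, EmbeddingLike.apply_eq_iff_eq,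
      Prod.mk.injEq, smul_eq_mul]
    by_cases hb : b = b' <;> by_cases ht : t = t' <;> simp [hb, ht]

theorem big_norm {m : ℕ} (S : Matrix (Fin m) (Fin m) ℤ) (h : IsNormalized S) :
    IsNormalized (big S) := by
  intro i j hij
  obtain ⟨⟨a, s⟩, rfl⟩ := finProdFinEquiv.surjective i
  obtain ⟨⟨b, t⟩, rfl⟩ := finProdFinEquiv.surjective j
  rw [big_apply]
  simp only [finProdFinEquiv_apply_val] at hij
  rcases hij with hij | hij
  · have ha : a.val = 0 := by omega
    have hs : s = 0 := Fin.ext (by simp; omega)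
    subst hs
    rw [h a b (Or.inl ha)]
    simp only [L, ha, if_true, one_mul]
    revert t; decide
  · have hb : b.val = 0 := by omega
    have ht : t = 0 := Fin.ext (by simp; omega)
    subst ht
    rw [h a b (Or.inr hb)]
    unfold L
    split_ifs <;> revert s <;> decide

theorem exists_had (k : ℕ) : ∃ m, k ≤ m ∧ 2 ≤ m ∧ ∃ S : Matrix (Fin m) (Fin m) ℤ,
    IsHadamard S ∧ IsNormalized S := by
  induction k with
  | zero =>
    refine ⟨2, by omega, le_rfl, !![1, 1; 1, -1], ⟨by decide, by decide, by decide⟩, ?_⟩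
    unfold IsNormalized; decide
  | succ k ih =>
    obtain ⟨m, h1, h2, S, h3, h4⟩ := ih
    exact ⟨m * 4, by omega, by omega, big S, big_had S h3, big_norm S h4⟩

theorem tail_sum {m : ℕ} (f : Fin (m * 4) → ℤ) :
    ∑ i : Fin (m * 4 - 4), f ⟨4 + i.val, by omega⟩ =
      ∑ a : Fin m, if a.val = 0 then 0 else ∑ s : Fin 4, f (finProdFinEquiv (a, s)) := by
  rw [sum_tail, ← finProdFinEquiv.sum_comp, Fintype.sum_prod_type]
  refine Finset.sum_congr rfl (fun a _ => ?_)
  split_ifs with h
  · refine Finset.sum_eq_zero (fun s _ => ?_)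
    rw [if_neg]
    simp only [finProdFinEquiv_apply_val]; omega
  · refine Finset.sum_congr rfl (fun s _ => ?_)
    rw [if_pos]
    simp only [finProdFinEquiv_apply_val]; omega

theorem col_sum {m : ℕ} (hm : 2 ≤ m) (S : Matrix (Fin m) (Fin m) ℤ) (h : IsHadamard S)
    (hn : IsNormalized S) (b : Fin m) :
    ∑ a : Fin m, (if a.val = 0 then 0 else S a b) = if b.val = 0 then (m : ℤ) - 1 else -1 := by
  have hxy := congrFun (congrFun h.2.2 ⟨0, by omega⟩) b
  rw [Matrix.mul_apply] at hxy
  simp only [Matrix.transpose_apply, Matrix.smul_apply, Matrix.one_apply, smul_eq_mul] at hxy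
  have e1 : ∀ a : Fin m, (if a.val = 0 then 0 else S a b) =
      S a ⟨0, by omega⟩ * S a b - if a = ⟨0, by omega⟩ then 1 else 0 := by
    intro a
    rw [hn a ⟨0, by omega⟩ (Or.inr rfl)]
    by_cases ha : a.val = 0
    · rw [if_pos ha, if_pos (Fin.ext ha), hn a b (Or.inl ha)]; simp
    · rw [if_neg ha, if_neg (fun h => ha (by rw [h]))]; simp
  simp only [e1]
  rw [Finset.sum_sub_distrib, hxy]
  simp only [Finset.sum_ite_eq', Finset.mem_univ, if_true]
  by_cases hb : b.val = 0
  · rw [if_pos hb, if_pos (Fin.ext hb.symm)]; simp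
  · rw [if_neg hb, if_neg (fun h => hb (by rw [← h]))]; simp

theorem result : ∃ r : ℕ, ∀ n₀ : ℕ, ∃ n : ℕ, n₀ ≤ n ∧ r < n ∧
    ∃ H : Matrix (Fin n) (Fin n) ℤ, IsHadamard H ∧ IsNormalized H ∧
      ¬ DiamMaximal (cols H r) := by
  refine ⟨4, fun n₀ => ?_⟩
  obtain ⟨m, h1, h2, S, h3, h4⟩ := exists_had n₀
  have hH := big_had S h3
  refine ⟨m * 4, by omega, by omega, big S, hH, big_norm S h4, fun hmax => ?_⟩
  let Z : Fin (m * 4) → ℤ := fun i => q (finProdFinEquiv.symm i).2
  let z : Fin (m * 4 - 4) → ℤ := fun i => Z ⟨4 + i.val, by omega⟩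
  let c : Fin (m * 4) → Fin (m * 4 - 4) → ℤ := fun j i => big S ⟨4 + i.val, by omega⟩ j
  have hz : ∀ i, z i = 1 ∨ z i = -1 := by
    intro i
    have : ∀ t, q t = 1 ∨ q t = -1 := by decide
    exact this _
  have hc : ∀ j i, c j i = 1 ∨ c j i = -1 := fun j i => hH.1 _ _
  have hzc : ∀ j, ∑ i, z i * c j i = 2 * ((m : ℤ) - 1) ∨ ∑ i, z i * c j i = -2 := by
    intro j
    obtain ⟨⟨b, t⟩, rfl⟩ := finProdFinEquiv.surjective j
    have := tail_sum (fun i => Z i * big S i (finProdFinEquiv (b, t)))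
    simp only [z, c]
    rw [this]
    have e : ∀ a : Fin m, (if a.val = 0 then 0 else ∑ s : Fin 4,
        Z (finProdFinEquiv (a, s)) * big S (finProdFinEquiv (a, s)) (finProdFinEquiv (b, t))) =
        2 * (if a.val = 0 then 0 else S a b) := by
      intro a
      split_ifs with ha
      · simp
      · simp only [Z, big_apply, Equiv.symm_apply_apply, L, if_neg ha]
        have hq : ∀ t : Fin 4, ∑ s : Fin 4, q s * (K s t * q t) = 2 := by decide
        rw [← hq t, Finset.sum_mul]
        exact Finset.sum_congr rfl (fun s _ => by ring)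
    simp only [e]
    rw [← Finset.mul_sum, col_sum h2 S h3 h4]
    split_ifs <;> simp
  have hcast : ((m * 4 - 4 : ℕ) : ℤ) = 4 * m - 4 := by omega
  have hd : ∀ j, hammingDist z (c j) + 1 ≤ 2 * m := by
    intro j
    have := ip_dist z (c j) hz (hc j)
    rcases hzc j with h | h <;> omega
  have hnot : z ∉ cols (big S) 4 := by
    intro hmem
    obtain ⟨j, _, hj⟩ := Finset.mem_image.mp hmem
    have hj' : c j = z := hj
    have := ip_dist z (c j) hz (hc j)
    rw [hj', hammingDist_self] at this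
    have h' := hzc j
    rw [hj'] at h'
    rcases h' with h | h <;> omega
  have hdiam : 2 * m ≤ diam (cols (big S) 4) := by
    let j0 : Fin (m * 4) := finProdFinEquiv (⟨0, by omega⟩, 0)
    let j1 : Fin (m * 4) := finProdFinEquiv (⟨1, by omega⟩, 0)
    have hip : ∑ i, c j0 i * c j1 i = -4 := by
      have := tail_sum (fun i => big S i j0 * big S i j1)
      simp only [c]
      rw [this]
      have e : ∀ a : Fin m, (if a.val = 0 then 0 else ∑ s : Fin 4,
          big S (finProdFinEquiv (a, s)) j0 * big S (finProdFinEquiv (a, s)) j1) =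
          4 * (if a.val = 0 then 0 else S a ⟨1, by omega⟩) := by
        intro a
        split_ifs with ha
        · simp
        · simp only [j0, j1, big_apply, h4 a ⟨0, by omega⟩ (Or.inr rfl)]
          have := L_col a 0 0
          rw [if_pos rfl] at this
          rw [← this, Finset.sum_mul]
          exact Finset.sum_congr rfl (fun s _ => by ring)
      simp only [e]
      rw [← Finset.mul_sum, col_sum h2 S h3 h4]
      simp
    have := ip_dist (c j0) (c j1) (hc j0) (hc j1)
    have h5 : hammingDist (c j0) (c j1) ≤ diam (cols (big S) 4) :=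
      Finset.le_sup (f := fun p : (Fin (m * 4 - 4) → ℤ) × (Fin (m * 4 - 4) → ℤ) =>
        hammingDist p.1 p.2) (b := (c j0, c j1))
        (Finset.mem_product.mpr ⟨Finset.mem_image.mpr ⟨j0, Finset.mem_univ _, rfl⟩,
          Finset.mem_image.mpr ⟨j1, Finset.mem_univ _, rfl⟩⟩)
    omega
  have hlt := hmax z hz hnot
  have hle : diam (insert z (cols (big S) 4)) ≤ diam (cols (big S) 4) := by
    refine Finset.sup_le (fun p hp => ?_)
    obtain ⟨hp1, hp2⟩ := Finset.mem_product.mp hp
    rcases Finset.mem_insert.mp hp1 with e1 | e1 <;> rcases Finset.mem_insert.mp hp2 with e2 | e2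
    · rw [e1, e2, hammingDist_self]; omega
    · obtain ⟨j, _, hj⟩ := Finset.mem_image.mp e2
      have hj' : c j = p.2 := hj
      have := hd j
      rw [e1, ← hj']; omega
    · obtain ⟨j, _, hj⟩ := Finset.mem_image.mp e1
      have hj' : c j = p.1 := hj
      have := hd j
      rw [e2, ← hj', hammingDist_comm]; omega
    · exact Finset.le_sup (f := fun p : (Fin (m * 4 - 4) → ℤ) × (Fin (m * 4 - 4) → ℤ) =>
        hammingDist p.1 p.2) (Finset.mem_product.mpr ⟨e1, e2⟩)
  omega

end Pool.Agent.Results.MP_1efffb_co.FourRows
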